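import Mathlib

namespace Pool.Agent.H.MP_afaa81_pr

open Matrix Finset

variable {m n κ : Type} [Fintype m] [Fintype n] [Fintype κ] [DecidableEq m] [DecidableEq n] [DecidableEq κ]

/-- The nuclear norm: the sum of the singular values. -/
noncomputable def nuc (A : Matrix m n ℝ) : ℝ := ∑ k, √((isHermitian_conjTranspose_mul_self A).eigenvalues k)

def fs (A : Matrix m n ℝ) : ℝ := ∑ i, ∑ j, A i j ^ 2

omit [DecidableEq m] [DecidableEq n] in
lemma fs_eq (A : Matrix m n ℝ) : fs A = (Aᵀ * A).trace := by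
  simp [fs, trace, mul_apply, sq, sum_comm (s := (univ : Finset m))]

omit [DecidableEq m] [DecidableEq n] in
lemma fs_nn (A : Matrix m n ℝ) : 0 ≤ fs A := by unfold fs; positivity

lemma svd (A : Matrix m n ℝ) : ∃ (V : Matrix n n ℝ) (σ : n → ℝ), (∀ k, 0 ≤ σ k) ∧ nuc A = ∑ k, σ k ∧
    #{k | σ k ≠ 0} = A.rank ∧ V * Vᵀ = 1 ∧ (A * V)ᵀ * (A * V) = diagonal fun k => σ k * σ k := by
  have h := isHermitian_conjTranspose_mul_self A
  have h1 : (A * h.eigenvectorUnitary.1)ᵀ * (A * h.eigenvectorUnitary.1) = diagonal h.eigenvalues := by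
    have := h.conjStarAlgAut_star_eigenvectorUnitary
    simpa [star_eq_conjTranspose, Matrix.mul_assoc] using this
  have h2 : ∀ k, 0 ≤ h.eigenvalues k := fun k => by
    have := congrFun₂ h1 k k
    rw [diagonal_apply_eq, mul_apply] at this
    exact this ▸ sum_nonneg fun i _ => mul_self_nonneg _
  refine ⟨h.eigenvectorUnitary, fun k => √(h.eigenvalues k), fun k => Real.sqrt_nonneg _, rfl, ?_, ?_, ?_⟩
  · rw [← rank_conjTranspose_mul_self, h.rank_eq_card_non_zero_eigs, Fintype.card_subtype]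
    simp only [ne_eq, Real.sqrt_eq_zero (h2 _)]
  · simpa [star_eq_conjTranspose] using h.eigenvectorUnitary.2.2
  · simp only [h1, Real.mul_self_sqrt (h2 _)]

omit [DecidableEq m] [DecidableEq n] [DecidableEq κ] in
lemma bessel (Q : Matrix m n ℝ) (h : Q * (Qᵀ * Q) = Q) (X : Matrix m κ ℝ) : fs (Qᵀ * X) ≤ fs X := by
  have h1 := fs_nn (X - Q * (Qᵀ * X))
  have h2 : Qᵀ * (Q * (Qᵀ * X)) = Qᵀ * X := by
    have := congrArg (·ᵀ * X) h
    simpa [Matrix.mul_assoc] using this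
  simp only [fs_eq, transpose_sub, transpose_mul, transpose_transpose, Matrix.sub_mul, Matrix.mul_sub, Matrix.mul_assoc,
    h2, trace_sub] at h1 ⊢
  linarith

lemma dual (A : Matrix m n ℝ) : ∃ T : Matrix m n ℝ →ₗ[ℝ] ℝ, T A = nuc A ∧
    ∀ {κ : Type} [Fintype κ] (X : Matrix m κ ℝ) (Y : Matrix n κ ℝ), T (X * Yᵀ) ≤ (fs X + fs Y) / 2 := by
  obtain ⟨V, σ, h1, h2, -, h3, h4⟩ := svd A
  let Q := A * V * diagonal fun k => (σ k)⁻¹
  have h5 : Qᵀ * (A * V) = diagonal σ := by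
    rw [transpose_mul, Matrix.mul_assoc, h4, diagonal_transpose, diagonal_mul_diagonal]
    congr 1
    ext k
    rcases eq_or_ne (σ k) 0 with e | e <;> simp [e]
  refine ⟨⟨⟨fun B => (Qᵀ * (B * V)).trace, by simp [Matrix.add_mul, Matrix.mul_add]⟩, by simp⟩, by simp [h5, h2],
    fun X Y => ?_⟩
  have h6 := bessel Q (by
    rw [show Qᵀ * Q = _ from (Matrix.mul_assoc _ _ _).symm, h5, diagonal_mul_diagonal, Matrix.mul_assoc,
      diagonal_mul_diagonal]
    congr 2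
    ext k
    rcases eq_or_ne (σ k) 0 with e | e <;> simp [e]) X
  have h7 := bessel V (by rw [← Matrix.mul_assoc, h3, Matrix.one_mul]) Y
  have h8 := fs_nn (Qᵀ * X - Vᵀ * Y)
  have h9 : (Xᵀ * (Q * (Vᵀ * Y))).trace = (Qᵀ * (X * (Yᵀ * V))).trace := by
    rw [← trace_transpose, ← Matrix.mul_assoc Qᵀ, trace_mul_comm (Qᵀ * X)]
    simp [Matrix.mul_assoc]
  have h0 : (Yᵀ * (V * (Qᵀ * X))).trace = (Qᵀ * (X * (Yᵀ * V))).trace := by
    rw [← Matrix.mul_assoc Qᵀ, trace_mul_comm (Qᵀ * X), Matrix.mul_assoc]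
  simp only [fs_eq, transpose_sub, transpose_mul, transpose_transpose, Matrix.sub_mul, Matrix.mul_sub, Matrix.mul_assoc,
    trace_sub, h9, h0, LinearMap.coe_mk, AddHom.coe_mk] at h6 h7 h8 ⊢
  linarith

lemma fac (A : Matrix m n ℝ) {u : ℝ} (hu : 0 < u) : ∃ (X : Matrix m n ℝ) (Y : Matrix n n ℝ) (σ : n → ℝ),
    (∀ k, 0 ≤ σ k) ∧ nuc A = ∑ k, σ k ∧ A = X * Yᵀ ∧ fs X = u * nuc A ∧ Yᵀ * Y = diagonal fun k => σ k / u := by
  obtain ⟨V, σ, h1, h2, -, h3, h4⟩ := svd A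
  have h5 : ∀ k, √(σ k / u) * √(σ k / u) = σ k / u := fun k => Real.mul_self_sqrt (div_nonneg (h1 k) hu.le)
  refine ⟨A * V * diagonal fun k => (√(σ k / u))⁻¹, V * diagonal fun k => √(σ k / u), σ, h1, h2, ?_, ?_, ?_⟩
  · rw [transpose_mul, ← Matrix.mul_assoc, Matrix.mul_assoc (A * V), diagonal_transpose, diagonal_mul_diagonal]
    refine (show A * V * Vᵀ = A by rw [Matrix.mul_assoc, h3, Matrix.mul_one]).symm.trans (congrArg (· * _) ?_)
    ext i k
    rcases eq_or_ne (σ k) 0 with e | e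
    · have := congrFun₂ h4 k k
      rw [diagonal_apply_eq, mul_apply, e, mul_zero] at this
      simp [mul_self_eq_zero.1 ((sum_eq_zero_iff_of_nonneg fun i _ => mul_self_nonneg ((A * V) i k)).1 this i (mem_univ _))]
    · rw [mul_diagonal, inv_mul_cancel₀ (Real.sqrt_pos.2 (div_pos ((h1 k).lt_of_ne' e) hu)).ne', mul_one]
  · rw [fs_eq, transpose_mul, Matrix.mul_assoc, ← Matrix.mul_assoc _ (A * V), h4, diagonal_transpose,
      diagonal_mul_diagonal, diagonal_mul_diagonal, trace_diagonal, h2, mul_sum]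
    refine sum_congr rfl fun k _ => ?_
    rw [mul_left_comm, ← mul_inv, h5]
    rcases eq_or_ne (σ k) 0 with e | e
    · simp [e]
    · field_simp
  · rw [transpose_mul, Matrix.mul_assoc, ← Matrix.mul_assoc _ V, mul_eq_one_comm.1 h3, Matrix.one_mul, diagonal_transpose,
      diagonal_mul_diagonal]
    simp only [h5]

lemma fac1 (A : Matrix m n ℝ) : ∃ (X : Matrix m n ℝ) (Y : Matrix n n ℝ), A = X * Yᵀ ∧ fs X = nuc A ∧ fs Y = nuc A := by
  obtain ⟨X, Y, σ, -, a, b, c, d⟩ := fac A one_pos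
  exact ⟨X, Y, b, by simpa using c, by simp [fs_eq, d, a]⟩

lemma nuc_add (X : Matrix m κ ℝ) (Y : Matrix n κ ℝ) (B C : Matrix m n ℝ) :
    nuc (X * Yᵀ + B + C) ≤ (fs X + fs Y) / 2 + nuc B + nuc C := by
  obtain ⟨T, a, b⟩ := dual (X * Yᵀ + B + C)
  have h : ∀ B, T B ≤ nuc B := fun B => by
    obtain ⟨X, Y, c, d, e⟩ := fac1 B
    have := b X Y
    rw [← c, d, e] at this
    linarith
  rw [← a, map_add, map_add]
  exact add_le_add (add_le_add (b X Y) (h B)) (h C)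

lemma nuc_le {A : Matrix m n ℝ} {K : ℕ} (h : A.rank ≤ K) {g : ℝ} (hg : 0 ≤ g) (h0 : K * fs A ≤ g ^ 2) : nuc A ≤ g := by
  obtain ⟨V, σ, h1, h2, h5, h3, h4⟩ := svd A
  have h6 : fs A = ∑ k, σ k ^ 2 := by
    have := congrArg trace h4
    rw [trace_mul_comm, transpose_mul, Matrix.mul_assoc, ← Matrix.mul_assoc V, h3, Matrix.one_mul, trace_mul_comm] at this
    simpa [fs_eq, sq] using this
  refine (pow_le_pow_iff_left₀ (h2 ▸ sum_nonneg fun k _ => h1 k) hg two_ne_zero).1 (le_trans ?_ h0)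
  rw [h2, ← sum_filter_ne_zero, h6]
  refine sq_sum_le_card_mul_sum_sq.trans (mul_le_mul (Nat.cast_le.2 (h5.trans_le h))
    (sum_le_sum_of_subset_of_nonneg (filter_subset _ _) fun _ _ _ => sq_nonneg _) (by positivity) (by positivity))

end Pool.Agent.H.MP_afaa81_pr
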