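import Pool.Agent.H.MP_afaa81_pr.A

namespace Pool.Agent.H.MP_afaa81_pr

open Matrix Finset Filter

variable {m n κ : Type} [Fintype m] [Fintype n] [Fintype κ] [DecidableEq m] [DecidableEq n] [DecidableEq κ]

lemma markov (a : m → ℝ) (ha : ∀ i, 0 ≤ a i) {B η c : ℝ} (hB : 0 < B) (hη : 0 < η) (h : ∑ i, a i ≤ B * c) :
    (#{i | ¬ a i ≤ B / η} : ℝ) ≤ η * c := by
  have h1 := (card_nsmul_le_sum {i | ¬ a i ≤ B / η} a (B / η) fun i hi => (not_le.1 (mem_filter.1 hi).2).le).trans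
    ((sum_le_sum_of_subset_of_nonneg (filter_subset _ _) fun i _ _ => ha i).trans h)
  rw [nsmul_eq_mul, ← mul_div_assoc, div_le_iff₀ hη] at h1
  exact le_of_mul_le_mul_right (by linarith) hB

lemma cells (X : Matrix m κ ℝ) (t : Finset κ) {r N : ℕ} (ht : #t ≤ r) (G : Finset m) {ρ η : ℝ} (hρ : 0 < ρ) (hη : 0 ≤ η)
    (hN : 0 < N) (hG : ∀ i ∈ G, ∀ k, |X i k| ≤ ρ) : ∃ G' ⊆ G, (#G'ᶜ : ℝ) ≤ #Gᶜ + η * Fintype.card m ∧ ∀ i ∈ G', ∃ S ⊆ G,
      η / (2 * N + 1) ^ r * Fintype.card m ≤ #S ∧ ∀ j ∈ S, ∀ k ∈ t, |X j k - X i k| ≤ ρ / N := by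
  let φ : m → t → ℤ := fun i k => ⌊X i k * N / ρ⌋
  obtain ⟨c, hc⟩ : ∃ c, c = η / (2 * N + 1) ^ r * Fintype.card m := ⟨_, rfl⟩
  have h0 : 0 ≤ c := by rw [hc]; positivity
  have hN' : (0 : ℝ) < N := by positivity
  refine ⟨{i ∈ G | c ≤ #{j ∈ G | φ j = φ i}}, filter_subset _ _, ?_, fun i hi => ⟨_, filter_subset _ _,
    hc ▸ (mem_filter.1 hi).2, fun j hj k hk => ?_⟩⟩
  · have h1 : #{i ∈ G | ¬ c ≤ #{j ∈ G | φ j = φ i}} = _ := card_eq_sum_card_fiberwise (f := φ)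
      (t := Fintype.piFinset fun _ => Icc (-N : ℤ) N) fun i hi => Fintype.mem_piFinset.2 fun k => by
        have := abs_le.1 (hG i (mem_filter.1 hi).1 k)
        refine mem_Icc.2 ⟨Int.le_floor.2 ?_, Int.floor_le_iff.2 ?_⟩ <;> push_cast
        · rw [le_div_iff₀ hρ]; nlinarith
        · rw [div_lt_iff₀ hρ]; nlinarith
    have h2 : (#{i ∈ G | ¬ c ≤ #{j ∈ G | φ j = φ i}} : ℝ) ≤ η * Fintype.card m := by
      rw [h1, Nat.cast_sum]
      refine (sum_le_card_nsmul _ _ c fun b _ => ?_).trans ?_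
      · rcases eq_empty_or_nonempty {a ∈ {i ∈ G | ¬ c ≤ #{j ∈ G | φ j = φ i}} | φ a = b} with e | ⟨i, e⟩
        · rwa [e, card_empty, Nat.cast_zero]
        · obtain ⟨e', rfl⟩ := mem_filter.1 e
          exact (Nat.cast_le.2 (card_le_card (filter_subset_filter _ (filter_subset _ _)))).trans
            (not_le.1 (mem_filter.1 e').2).le
      · have : ((#(Fintype.piFinset fun _ : t => Icc (-N : ℤ) N) : ℕ) : ℝ) ≤ (2 * N + 1) ^ r := by
          rw [Fintype.card_piFinset, prod_const, Int.card_Icc, show ((N : ℤ) + 1 - -N).toNat = 2 * N + 1 by omega]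
          exact_mod_cast Nat.pow_le_pow_right (by omega) (by simpa using ht)
        rw [nsmul_eq_mul]
        refine (mul_le_mul_of_nonneg_right this h0).trans_eq ?_
        rw [hc]
        field_simp
    refine le_trans ?_ (add_le_add_right h2 _)
    exact_mod_cast (card_le_card fun i => by simp; tauto).trans (card_union_le _ _)
  · have := Int.abs_sub_lt_one_of_floor_eq_floor (congrFun (mem_filter.1 hj).2 ⟨k, hk⟩)
    rw [← sub_div, ← sub_mul, abs_div, abs_mul, abs_of_pos hρ, abs_of_pos hN', div_lt_one hρ] at this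
    exact (le_div_iff₀ hN').2 this.le

lemma core (X : Matrix m κ ℝ) (Y : Matrix n κ ℝ) (l : κ → ℝ) (P : m × n → Prop) [DecidablePred P]
    {C η ζ θ θ' δ M ω : ℝ} {r N : ℕ} (c0 : 0 < C) (η0 : 0 < η) (ζ0 : 0 < ζ) (θ0 : 0 < θ') (θ1 : θ' ≤ θ) (δ1 : δ ≤ 1)
    (ω0 : 0 < ω) (N0 : 0 < N) (h1 : C ≤ r * θ) (hω : C / η * (ω / η) ≤ ζ ^ 2) (h3 : θ' * C ≤ ζ ^ 2 * δ)
    (h4 : r * (2 * (C / η / N)) ≤ ζ) (hP : ∀ (S : Finset m) (T : Finset n), η / (2 * N + 1) ^ r * Fintype.card m ≤ #S →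
      η / (2 * N + 1) ^ r * Fintype.card n ≤ #T → δ * (Fintype.card m * Fintype.card n) < #{p ∈ S ×ˢ T | P p})
    (hl : ∀ k, 0 ≤ l k) (hY : Yᵀ * Y = diagonal fun k => Fintype.card n * l k) (hX : fs X ≤ C * Fintype.card m)
    (hC : ∑ k, l k ≤ C) (h2 : ∑ k with θ' < l k ∧ l k ≤ θ, l k ≤ ω) (hD : ∀ i j, |(X * Yᵀ) i j| ≤ M)
    (h0 : ∀ i j, P (i, j) → (X * Yᵀ) i j = 0) :
    fs (X * Yᵀ) ≤ (34 * ζ ^ 2 + 5 * η * M ^ 2) * (Fintype.card m * Fintype.card n) := by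
  obtain ⟨p, hp⟩ : ∃ p : Finset κ → m → n → ℝ, ∀ s i j, p s i j = ∑ k ∈ s, X i k * Y j k := ⟨_, fun _ _ _ => rfl⟩
  have k1 : ∀ i j, (X * Yᵀ) i j = p {k | θ < l k} i j + p {k | θ' < l k ∧ l k ≤ θ} i j + p {k | l k ≤ θ'} i j :=
    fun i j => by
      simp only [hp, mul_apply, transpose_apply, sum_filter, ← sum_add_distrib]
      exact sum_congr rfl fun k _ => by grind
  have k2 : ∑ i, ∑ j, p {k | l k ≤ θ'} i j ^ 2 ≤ ζ ^ 2 * δ * (Fintype.card m * Fintype.card n) := by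
    have : ∀ i, ∑ j, p {k | l k ≤ θ'} i j ^ 2 ≤ θ' * Fintype.card n * ∑ k, X i k ^ 2 := fun i => by
      have e := dotProduct_mulVec (Y *ᵥ fun k => if l k ≤ θ' then X i k else 0) Y fun k => if l k ≤ θ' then X i k else 0
      rw [vecMul_mulVec, hY] at e
      refine (Eq.trans ?_ e).trans_le ?_
      · simp [hp, sq, dotProduct, mulVec, sum_filter, mul_comm]
      · rw [mul_sum]
        refine sum_le_sum fun k _ => ?_
        rw [vecMul_diagonal]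
        dsimp only
        split_ifs with a
        · nlinarith [mul_le_mul_of_nonneg_left a (show 0 ≤ Fintype.card n * X i k ^ 2 by positivity)]
        · simpa using by positivity
    refine (sum_le_sum fun i _ => this i).trans ?_
    rw [← mul_sum]
    refine (mul_le_mul_of_nonneg_left hX (by positivity)).trans ?_
    nlinarith [mul_le_mul_of_nonneg_right h3 (show (0 : ℝ) ≤ Fintype.card m * Fintype.card n by positivity)]
  have k3 : ∀ s : Finset κ, ∑ j, ∑ k ∈ s, Y j k ^ 2 = (∑ k ∈ s, l k) * Fintype.card n := fun s => by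
    rw [sum_comm, sum_mul]
    exact sum_congr rfl fun k _ => by simpa [mul_apply, sq, mul_comm] using congrFun₂ hY k k
  have k4 : #{k | θ < l k} ≤ r := by
    have := (card_nsmul_le_sum {k | θ < l k} l θ fun i hi => (mem_filter.1 hi).2.le).trans
      ((sum_le_sum_of_subset_of_nonneg (filter_subset _ _) fun i _ _ => hl i).trans (hC.trans h1))
    rw [nsmul_eq_mul] at this
    exact_mod_cast le_of_mul_le_mul_right this (θ0.trans_le θ1)
  have k5 : ∀ a : κ → ℝ, ∑ k, a k ^ 2 ≤ C / η → ∀ k, |a k| ≤ √(C / η) := fun a h k =>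
    Real.abs_le_sqrt ((single_le_sum (f := fun k => a k ^ 2) (fun _ _ => sq_nonneg _) (mem_univ k)).trans h)
  have ρ0 := Real.sqrt_pos.2 (div_pos c0 η0)
  obtain ⟨G, g1, g2, g3⟩ := cells X _ k4 {i | ∑ k, X i k ^ 2 ≤ C / η} ρ0 η0.le N0 fun i hi => k5 _ (mem_filter.1 hi).2
  obtain ⟨H, e1, e2, e3⟩ := cells Y _ k4 {j | ∑ k, Y j k ^ 2 ≤ C / η ∧ ∑ k with θ' < l k ∧ l k ≤ θ, Y j k ^ 2 ≤ ω / η}
    ρ0 η0.le N0 fun i hi => k5 _ (mem_filter.1 hi).2.1
  have k6 : ∀ i j, ∑ k, X i k ^ 2 ≤ C / η → ∑ k with θ' < l k ∧ l k ≤ θ, Y j k ^ 2 ≤ ω / η →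
      |p {k | θ' < l k ∧ l k ≤ θ} i j| ≤ ζ := fun i j a b => abs_le_of_sq_le_sq (by
    rw [hp]
    exact (sum_mul_sq_le_sq_mul_sq _ _ _).trans ((mul_le_mul ((sum_le_sum_of_subset_of_nonneg (filter_subset _ _)
      fun _ _ _ => sq_nonneg _).trans a) b (by positivity) (by positivity)).trans hω)) ζ0.le
  have k7 : ∀ i ∈ G, ∀ j ∈ H, (X * Yᵀ) i j ^ 2 ≤ 32 * ζ ^ 2 + 2 * p {k | l k ≤ θ'} i j ^ 2 := fun i hi j hj => by
    obtain ⟨S, s1, s2, s3⟩ := g3 i hi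
    obtain ⟨T, t1, t2, t3⟩ := e3 j hj
    obtain ⟨q, q1, q2⟩ : ∃ q ∈ {p ∈ S ×ˢ T | P p}, p {k | l k ≤ θ'} q.1 q.2 ^ 2 ≤ ζ ^ 2 := by
      by_contra! a
      have := (card_nsmul_le_sum _ _ _ fun q h => (a q h).le).trans ((sum_le_sum_of_subset_of_nonneg (subset_univ _)
        fun _ _ _ => sq_nonneg _).trans ((Fintype.sum_prod_type _).trans_le k2))
      rw [nsmul_eq_mul] at this
      nlinarith [mul_lt_mul_of_pos_left (hP S T s2 t2) (pow_pos ζ0 2)]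
    obtain ⟨q1, q3⟩ := mem_filter.1 q1
    obtain ⟨q1, q4⟩ := mem_product.1 q1
    have a1 := abs_le.1 (abs_le_of_sq_le_sq q2 ζ0.le)
    have a2 := abs_le.1 (k6 _ _ (mem_filter.1 (s1 q1)).2 (mem_filter.1 (t1 q4)).2.2)
    have a3 := abs_le.1 (k6 _ _ (mem_filter.1 (g1 hi)).2 (mem_filter.1 (e1 hj)).2.2)
    have a4 := (k1 _ _).symm.trans (h0 _ _ q3)
    have a5 : |p {k | θ < l k} q.1 q.2 - p {k | θ < l k} i j| ≤ ζ := by
      rw [hp, hp, ← sum_sub_distrib]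
      refine (abs_sum_le_sum_abs _ _).trans ((sum_le_card_nsmul _ _ (2 * (C / η / N)) fun k hk => ?_).trans ?_)
      · rw [show X q.1 k * Y q.2 k - X i k * Y j k = (X q.1 k - X i k) * Y q.2 k + X i k * (Y q.2 k - Y j k) by ring,
          ← Real.mul_self_sqrt (div_pos c0 η0).le]
        refine (abs_add_le _ _).trans ?_
        rw [abs_mul, abs_mul]
        refine (add_le_add (mul_le_mul (s3 _ q1 k hk) (k5 _ (mem_filter.1 (t1 q4)).2.1 k) (by positivity) (by positivity))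
          (mul_le_mul (k5 _ (mem_filter.1 (g1 hi)).2 k) (t3 _ q4 k hk) (by positivity) (by positivity))).trans_eq ?_
        ring
      · rw [nsmul_eq_mul]
        exact (mul_le_mul_of_nonneg_right (Nat.cast_le.2 k4) (by positivity)).trans h4
    have a6 := abs_le.1 a5
    have a7 : (p {k | θ < l k} i j + p {k | θ' < l k ∧ l k ≤ θ} i j) ^ 2 ≤ (4 * ζ) ^ 2 :=
      sq_le_sq' (by linarith) (by linarith)
    rw [k1]
    nlinarith [sq_nonneg (p {k | θ < l k} i j + p {k | θ' < l k ∧ l k ≤ θ} i j - p {k | l k ≤ θ'} i j)]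
  have k8 : ∀ i j, (X * Yᵀ) i j ^ 2 ≤ 32 * ζ ^ 2 + 2 * p {k | l k ≤ θ'} i j ^ 2 + M ^ 2 * (if i ∈ Gᶜ then 1 else 0) +
      M ^ 2 * (if j ∈ Hᶜ then 1 else 0) := fun i j => by
    have := sq_le_sq' (abs_le.1 (hD i j)).1 (abs_le.1 (hD i j)).2
    have := sq_nonneg (p {k | l k ≤ θ'} i j)
    have := sq_nonneg M
    have := sq_nonneg ζ
    split_ifs with a b
    any_goals linarith
    linarith [k7 i (by simpa using a) j (by simp_all)]
  have m1 := markov (fun i => ∑ k, X i k ^ 2) (fun _ => by positivity) c0 η0 hX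
  have m2 := markov (fun j => ∑ k, Y j k ^ 2) (fun _ => by positivity) c0 η0
    ((k3 _).trans_le (mul_le_mul_of_nonneg_right hC (by positivity)))
  have m3 := markov (fun j => ∑ k with θ' < l k ∧ l k ≤ θ, Y j k ^ 2) (fun _ => by positivity) ω0 η0
    ((k3 _).trans_le (mul_le_mul_of_nonneg_right h2 (by positivity)))
  have m4 : (#Gᶜ : ℝ) ≤ 2 * η * Fintype.card m := by
    rw [compl_filter] at g2
    linarith
  have m5 : (#Hᶜ : ℝ) ≤ 3 * η * Fintype.card n := by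
    simp only [compl_filter, not_and_or, filter_or] at e2
    have := (Nat.cast_le (α := ℝ)).2 (card_union_le {j | ¬ ∑ k, Y j k ^ 2 ≤ C / η}
      {j | ¬ ∑ k with θ' < l k ∧ l k ≤ θ, Y j k ^ 2 ≤ ω / η})
    push_cast at this
    linarith
  refine (sum_le_sum fun i _ => sum_le_sum fun j _ => k8 i j).trans ?_
  simp only [sum_add_distrib, ← mul_sum, sum_const, card_univ, nsmul_eq_mul, sum_boole, filter_mem_eq_inter, univ_inter]
  nlinarith [mul_le_mul_of_nonneg_left m4 (show 0 ≤ M ^ 2 * Fintype.card n by positivity),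
    mul_le_mul_of_nonneg_left m5 (show 0 ≤ M ^ 2 * Fintype.card m by positivity),
    mul_le_mul_of_nonneg_left δ1 (show 0 ≤ ζ ^ 2 * (Fintype.card m * Fintype.card n) by positivity)]

lemma bdd {m n : ℕ → ℕ} (P : ∀ q, Fin (m q) × Fin (n q) → Prop) [∀ q, DecidablePred (P q)]
    (h0 : ∀ᶠ q in atTop, 0 < m q ∧ 0 < n q) (hs : ∀ c > (0 : ℝ), ∃ δ > (0 : ℝ), ∀ᶠ q in atTop, ∀ (S : Finset (Fin (m q)))
      (T : Finset (Fin (n q))), c * m q ≤ #S → c * n q ≤ #T → δ * (m q * n q) < #{p ∈ S ×ˢ T | P q p})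
    {C ε : ℝ} (M : ℝ) (c0 : 0 < C) (ε0 : 0 < ε) : ∀ᶠ q in atTop, ∀ D : Matrix (Fin (m q)) (Fin (n q)) ℝ,
      nuc D ≤ C * √(m q * n q) → (∀ i j, |D i j| ≤ M) → (∀ i j, P q (i, j) → D i j = 0) → fs D ≤ ε * (m q * n q) := by
  obtain ⟨ζ, ζ0, hζ⟩ : ∃ ζ : ℝ, 0 < ζ ∧ 34 * ζ ^ 2 = ε / 2 := ⟨√(ε / 68), by positivity, by
    rw [Real.sq_sqrt (by positivity)]; ring⟩
  obtain ⟨η, η0, hη⟩ : ∃ η : ℝ, 0 < η ∧ 5 * η * M ^ 2 ≤ ε / 2 := ⟨ε / (10 * (M ^ 2 + 1)), by positivity, by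
    rw [mul_div_assoc', div_mul_eq_mul_div, div_le_div_iff₀ (by positivity) (by positivity)]; nlinarith⟩
  obtain ⟨ω, ω0, hω⟩ : ∃ ω : ℝ, 0 < ω ∧ C / η * (ω / η) ≤ ζ ^ 2 := ⟨ζ ^ 2 * η ^ 2 / C, by positivity, le_of_eq (by field_simp)⟩
  have step : ∀ θ > (0 : ℝ), ∃ θ' > (0 : ℝ), θ' ≤ θ ∧ ∀ᶠ q in atTop, ∀ (X : Matrix (Fin (m q)) (Fin (n q)) ℝ)
      (Y : Matrix (Fin (n q)) (Fin (n q)) ℝ) (l : Fin (n q) → ℝ), (∀ k, 0 ≤ l k) → Yᵀ * Y = (diagonal fun k => n q * l k) →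
      fs X ≤ C * m q → ∑ k, l k ≤ C → ∑ k with θ' < l k ∧ l k ≤ θ, l k ≤ ω → (∀ i j, |(X * Yᵀ) i j| ≤ M) →
      (∀ i j, P q (i, j) → (X * Yᵀ) i j = 0) → fs (X * Yᵀ) ≤ ε * (m q * n q) := fun θ θ0 => by
    obtain ⟨r, hr⟩ := exists_nat_gt (C / θ)
    obtain ⟨N, hN⟩ := exists_nat_gt (r * (2 * (C / η)) / ζ)
    have N0 : (0 : ℝ) < N := lt_of_le_of_lt (by positivity) hN
    obtain ⟨δ, δ0, hδ⟩ := hs (η / (2 * N + 1) ^ r) (by positivity)
    refine ⟨min θ (ζ ^ 2 * min δ 1 / C), by positivity, min_le_left _ _, hδ.mono fun q h X Y l a b c d e f g => ?_⟩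
    have := core X Y l (P q) c0 η0 ζ0 (by positivity) (min_le_left _ _) (min_le_right δ 1) ω0 (Nat.cast_pos.1 N0)
      ((div_lt_iff₀ θ0).1 hr).le hω ((le_div_iff₀ c0).1 (min_le_right _ _)) (by
        rw [div_lt_iff₀ ζ0] at hN
        rw [← mul_div_assoc, ← mul_div_assoc, div_le_iff₀ N0]
        linarith) (by
        simp only [Fintype.card_fin]
        exact fun S T x y => (mul_le_mul_of_nonneg_right (min_le_left _ _) (by positivity)).trans_lt (h S T x y))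
      a (by simpa using b) (by simpa using c) d e f g
    simp only [Fintype.card_fin] at this
    exact this.trans (mul_le_mul_of_nonneg_right (by linarith) (by positivity))
  choose! f f1 f2 f3 using step
  have h1 : ∀ j, 0 < f^[j] 1 := fun j => by
    induction j with
    | zero => exact one_pos
    | succ j ih => exact Function.iterate_succ_apply' f j 1 ▸ f1 _ ih
  obtain ⟨J, hJ⟩ := exists_nat_gt (C / ω)
  filter_upwards [h0, (eventually_all_finset (range J)).2 fun j _ => f3 _ (h1 j)] with q h2 h3 D a b c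
  have h4 : (0 : ℝ) < m q := Nat.cast_pos.2 h2.1
  have h5 : (0 : ℝ) < n q := Nat.cast_pos.2 h2.2
  have h6 := Real.sqrt_pos.2 (mul_pos h4 h5)
  obtain ⟨X, Y, σ, s1, s2, rfl, s3, s4⟩ := fac D (div_pos h6 h5)
  have h7 : ∑ k, σ k / √(m q * n q) ≤ C := by rwa [← sum_div, div_le_iff₀ h6, ← s2]
  have h8 : ∀ k, 0 ≤ σ k / √(m q * n q) := fun k => div_nonneg (s1 k) h6.le
  obtain ⟨g, hg⟩ : ∃ g : ℕ → ℝ, ∀ j, g j = ∑ k with σ k / √(m q * n q) ≤ f^[j] 1, σ k / √(m q * n q) := ⟨_, fun _ => rfl⟩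
  obtain ⟨j, j1, j2⟩ := exists_le_of_sum_le (s := range J) (f := fun j => g j - g (j + 1)) (g := fun _ => ω)
    (nonempty_range_iff.2 (Nat.cast_pos.1 ((div_pos c0 ω0).trans hJ)).ne') (by
      have := (sum_le_sum_of_subset_of_nonneg (filter_subset (σ · / √(m q * n q) ≤ f^[0] 1) _) fun k _ _ => h8 k).trans h7
      have := sum_nonneg (s := {k | σ k / √(m q * n q) ≤ f^[J] 1}) fun k _ => h8 k
      rw [sum_range_sub', sum_const, card_range, nsmul_eq_mul, hg, hg]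
      linarith [(div_lt_iff₀ ω0).1 hJ])
  refine h3 j j1 X Y _ h8 (s4.trans (by congr 1; ext k; field_simp)) (s3.trans_le ((mul_le_mul_of_nonneg_left a
    (by positivity)).trans_eq ?_)) h7 (le_trans (le_of_eq ?_) j2) b c
  · rw [mul_left_comm, div_mul_eq_mul_div, Real.mul_self_sqrt (by positivity), mul_div_cancel_right₀ _ h5.ne']
  · have := f2 _ (h1 j)
    simp only [hg, Function.iterate_succ_apply', sum_filter, ← sum_sub_distrib]
    exact sum_congr rfl fun k _ => by grind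

end Pool.Agent.H.MP_afaa81_pr
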