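import Pool.Agent.H.MP_afaa81_pr.B

namespace Pool.Agent.H.MP_afaa81_pr

open Matrix Finset Filter

variable {m n : Type} [Fintype m] [Fintype n] [DecidableEq m] [DecidableEq n]

lemma trunc (A B : Matrix m n ℝ) (P : m × n → Prop) {K : ℕ} {L τ : ℝ} (hK : A.rank ≤ K) (hL : ∀ i j, |A i j| ≤ L)
    (L0 : 0 < L) (K0 : 0 < K) (τ0 : 0 < τ) (τ1 : τ ≤ 1) (m0 : (0 : ℝ) < Fintype.card m) (n0 : (0 : ℝ) < Fintype.card n)
    (h1 : ∀ i j, P (i, j) → B i j = A i j) (h2 : ∀ B' : Matrix m n ℝ, (∀ i j, P (i, j) → B' i j = A i j) → nuc B ≤ nuc B') :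
    ∃ D : Matrix m n ℝ, nuc D ≤ 2 * (√K * L) * √(Fintype.card m * Fintype.card n) ∧ (∀ i j, |D i j| ≤ √K * L / τ ^ 2 + L) ∧
      (∀ i j, P (i, j) → D i j = 0) ∧ fs (B - A) ≤ fs D + (8 * K + 4) * L ^ 2 * τ * (Fintype.card m * Fintype.card n) := by
  obtain ⟨g, hg⟩ : ∃ g, g = √K * L * √(Fintype.card m * Fintype.card n) := ⟨_, rfl⟩
  have g0 : 0 < g := by rw [hg]; positivity
  have g1 : g ^ 2 = K * (L ^ 2 * (Fintype.card m * Fintype.card n)) := by
    rw [hg, mul_pow, mul_pow, Real.sq_sqrt (by positivity), Real.sq_sqrt (by positivity), mul_assoc]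
  have k1 : ∀ (u : m → ℝ) (v : n → ℝ) (c : ℝ), 0 ≤ c → (∑ i, u i ^ 2) * ∑ j, v j ^ 2 ≤
      c ^ 2 * (Fintype.card m * Fintype.card n) → nuc (of fun i j => u i * A i j * v j) ≤ c * g := fun u v c c0 h => by
    refine nuc_le (K := K) (by
      rw [show (of fun i j => u i * A i j * v j) = diagonal u * A * diagonal v by ext; simp]
      exact (rank_mul_le_left _ _).trans ((rank_mul_le_right _ _).trans hK)) (by positivity) ?_
    rw [mul_pow, g1, mul_left_comm, mul_left_comm (c ^ 2)]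
    refine mul_le_mul_of_nonneg_left (le_trans ?_ (mul_le_mul_of_nonneg_left h (sq_nonneg L))) (by positivity)
    rw [sum_mul_sum, mul_sum]
    refine sum_le_sum fun i _ => (sum_le_sum fun j _ => ?_).trans_eq (mul_sum _ _ _).symm
    have := mul_le_mul_of_nonneg_right (sq_le_sq' (abs_le.1 (hL i j)).1 (abs_le.1 (hL i j)).2)
      (show 0 ≤ u i ^ 2 * v j ^ 2 by positivity)
    rw [of_apply]
    linarith
  have k2 : nuc B ≤ g := (h2 _ fun i j _ => by simp).trans ((k1 1 1 1 zero_le_one (by simp)).trans_eq (one_mul g))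
  obtain ⟨X, Y, rfl, hX, hY⟩ := fac1 B
  obtain ⟨a, ha⟩ : ∃ a : m → ℝ, ∀ i, a i = ∑ k, X i k ^ 2 := ⟨_, fun _ => rfl⟩
  obtain ⟨b, hb⟩ : ∃ b : n → ℝ, ∀ i, b i = ∑ k, Y i k ^ 2 := ⟨_, fun _ => rfl⟩
  have a0 : ∀ i, 0 ≤ a i := fun i => by rw [ha]; positivity
  have b0 : ∀ i, 0 ≤ b i := fun i => by rw [hb]; positivity
  have a1 : ∑ i, a i = nuc (X * Yᵀ) := by simpa only [ha, fs] using hX
  have b1 : ∑ i, b i = nuc (X * Yᵀ) := by simpa only [hb, fs] using hY
  have k3 : ∀ i j, (X * Yᵀ) i j ^ 2 ≤ a i * b j := fun i j => by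
    rw [ha, hb]
    exact sum_mul_sq_le_sq_mul_sq _ _ _
  obtain ⟨I, hI⟩ : ∃ I : Finset m, I = univ.filter fun i => ¬ a i ≤ g / Fintype.card m / τ ^ 2 := ⟨_, rfl⟩
  obtain ⟨J, hJ⟩ : ∃ J : Finset n, J = univ.filter fun i => ¬ b i ≤ g / Fintype.card n / τ ^ 2 := ⟨_, rfl⟩
  have m1 : (#I : ℝ) ≤ τ ^ 2 * Fintype.card m := hI ▸ markov a a0 (by positivity) (by positivity) (by
    rw [div_mul_cancel₀ _ m0.ne', a1]; exact k2)
  have m2 : (#J : ℝ) ≤ τ ^ 2 * Fintype.card n := hJ ▸ markov b b0 (by positivity) (by positivity) (by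
    rw [div_mul_cancel₀ _ n0.ne', b1]; exact k2)
  let X' : Matrix m n ℝ := of fun i k => if i ∈ I then 0 else X i k
  let Y' : Matrix n n ℝ := of fun i k => if i ∈ J then 0 else Y i k
  have x1 : fs X' + ∑ i ∈ I, a i = nuc (X * Yᵀ) := by
    rw [← a1, ← sum_ite_mem_eq, fs, ← sum_add_distrib]
    exact sum_congr rfl fun i _ => by by_cases e : i ∈ I <;> simp [X', e, ha]
  have y1 : fs Y' + ∑ i ∈ J, b i = nuc (X * Yᵀ) := by
    rw [← b1, ← sum_ite_mem_eq, fs, ← sum_add_distrib]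
    exact sum_congr rfl fun i _ => by by_cases e : i ∈ J <;> simp [Y', e, hb]
  have k4 : ∀ i j, (X' * Y'ᵀ) i j = if i ∈ I ∨ j ∈ J then 0 else (X * Yᵀ) i j := fun i j => by
    by_cases e : i ∈ I <;> by_cases e' : j ∈ J <;> simp [X', Y', mul_apply, e, e']
  have c1 : (#Iᶜ : ℝ) ≤ Fintype.card m := Nat.cast_le.2 (card_le_univ _)
  have c2 : (#Jᶜ : ℝ) ≤ Fintype.card n := Nat.cast_le.2 (card_le_univ _)
  have k5 := (h2 _ fun i j h => by
    by_cases e : i ∈ I <;> by_cases e' : j ∈ J <;> simp [k4, e, e', h1 i j h]).trans ((nuc_add X' Y' _ _).trans (add_le_add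
      (add_le_add_right (k1 (fun i => if i ∈ I then 1 else 0) 1 τ τ0.le (by
        simpa [← mul_assoc] using mul_le_mul_of_nonneg_right m1 n0.le)) _)
      (k1 (fun i => if i ∈ Iᶜ then 1 else 0) (fun j => if j ∈ J then 1 else 0) τ τ0.le (by
        simpa [-mem_compl, mul_left_comm] using mul_le_mul c1 m2 (by positivity) m0.le))))
  have a2 := sum_nonneg (s := I) fun i _ => a0 i
  have b2 := sum_nonneg (s := J) fun i _ => b0 i
  refine ⟨X' * Y'ᵀ + (of fun i j => (if i ∈ Iᶜ then -1 else 0) * A i j * if j ∈ Jᶜ then 1 else 0) + 0,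
    (nuc_add _ _ _ _).trans ?_, fun i j => ?_, fun i j h => ?_, ?_⟩
  · have := k1 (fun i => if i ∈ Iᶜ then -1 else 0) (fun j => if j ∈ Jᶜ then 1 else 0) 1 zero_le_one (by
      simpa [-mem_compl] using mul_le_mul c1 c2 (by positivity) m0.le)
    have := nuc_le (A := (0 : Matrix m n ℝ)) (K := 0) (by simp) le_rfl (by simp)
    linarith
  · by_cases e : i ∈ I
    · simpa [k4, e] using by positivity
    by_cases e' : j ∈ J
    · simpa [k4, e'] using by positivity
    have : |(X * Yᵀ) i j| ≤ √K * L / τ ^ 2 := abs_le_of_sq_le_sq ((k3 i j).trans ((mul_le_mul (by simpa [hI] using e)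
      (by simpa [hJ] using e') (b0 j) (by positivity)).trans_eq (by
        rw [div_pow, mul_pow, Real.sq_sqrt (by positivity)]
        field_simp
        rw [g1]
        ring))) (by positivity)
    simpa [k4, e, e'] using (abs_add_le _ (-A i j)).trans (add_le_add this ((abs_neg _).trans_le (hL i j)))
  · by_cases e : i ∈ I <;> by_cases e' : j ∈ J <;> simp [k4, e, e', h1 i j h]
  · refine (sum_le_sum fun i _ => sum_le_sum (g := fun j => (X' * Y'ᵀ + (of fun i j => (if i ∈ Iᶜ then -1 else 0) * A i j *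
      if j ∈ Jᶜ then 1 else 0) + 0 : Matrix m n ℝ) i j ^ 2 + (2 * ((if i ∈ I then a i else 0) * b j) + 2 * (a i * if j ∈ J then b j else 0) +
        (2 * L ^ 2 * if i ∈ I then 1 else 0) + 2 * L ^ 2 * if j ∈ J then 1 else 0)) fun j _ => ?_).trans ?_
    · have := k3 i j
      have := sq_le_sq' (abs_le.1 (hL i j)).1 (abs_le.1 (hL i j)).2
      have := sq_nonneg ((X * Yᵀ) i j + A i j)
      have := mul_nonneg (a0 i) (b0 j)
      by_cases e : i ∈ I <;> by_cases e' : j ∈ J <;> simp [k4, e, e'] <;> nlinarith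
    · simp only [sum_add_distrib, ← mul_sum, ← sum_mul, sum_ite_mem_eq, a1, b1, sum_const, card_univ, nsmul_eq_mul, mul_one]
      refine add_le_add le_rfl ?_
      have := mul_le_mul (show ∑ i ∈ I, a i + ∑ j ∈ J, b j ≤ 4 * τ * g by linarith) k2 (a1 ▸ sum_nonneg fun i _ => a0 i)
        (by positivity)
      have h3 := mul_le_mul_of_nonneg_left (show τ ^ 2 ≤ τ by nlinarith)
        (show 0 ≤ L ^ 2 * (Fintype.card m * Fintype.card n) by positivity)
      have h4 := congrArg (τ * ·) g1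
      nlinarith [mul_le_mul_of_nonneg_left m1 (show 0 ≤ L ^ 2 * Fintype.card n by positivity),
        mul_le_mul_of_nonneg_left m2 (show 0 ≤ L ^ 2 * Fintype.card m by positivity)]

end Pool.Agent.H.MP_afaa81_pr
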